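import Pool.Agent.H110.Cob

/-! # s-cobordisms of homology manifolds, as worded in the problem file, need not be products:
the boundary has to be collared

For `N` a sphere of dimension `k ≥ 3` or any nonempty closed nonlocally linear `k`-manifold, the
product of `N` with the quotient of the annulus `1 ≤ ‖x‖ ≤ 2` in three-space by a wild arc is
an s-cobordism of dimension `k + 3` in the sense of the problem file, between `S² × N` and
`S² × N`. It is not a product. One boundary component is collared, the other is not. -/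

set_option autoImplicit false

namespace Pool.Agent.Results.MP_1b853a_gt.WildBoundary

open Pool.Agent.H110 Set

theorem homologyManifold_of_homeo {k : ℕ} {X Y : Type} [TopologicalSpace X] [TopologicalSpace Y]
    (h : IsHomologyManifold k X) (e : X ≃ₜ Y) : IsHomologyManifold k Y where
  locallyCompact := by
    have := h.locallyCompact
    exact e.symm.isClosedEmbedding.locallyCompactSpace
  finDim := finDim_of_embedding e.symm e.symm.isEmbedding h.finDim
  anr := h.anr.of_homeo e
  localHomology := fun y => by
    have := h.anr.1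
    have h1 := SameLocalHomology.of_homeo e.symm y
    exact h1.trans (h.localHomology _)

theorem result (k : ℕ) (hk : 3 ≤ k) (N : Type) [TopologicalSpace N]
    (hN : (IsClosedNLLManifold k N ∧ Nonempty N) ∨ Nonempty (Sph k ≃ₜ N)) :
    ∃ (W : Type) (_ : TopologicalSpace W) (i₀ i₁ : C(Sph 2 × N, W)),
      IsSCobordism (k + 2) i₀ i₁ ∧ IsEmpty (W ≃ₜ (Sph 2 × N) × unitInterval) ∧
        IsCollared i₀ ∧ ¬ IsCollared i₁ ∧ (DDP N → DDP W) := by
  obtain ⟨γ, hγ, hr⟩ := exists_arc
  obtain ⟨hc, hm, hne, hd, hdi⟩ : CompactSpace N ∧ IsHomologyManifold k N ∧ Nonempty N ∧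
      DDP (Sph 2 × N) ∧ DDP (OO γ × N) := by
    rcases hN with ⟨h, hne⟩ | ⟨⟨e⟩⟩
    · exact ⟨h.compact, h.manifold, hne, h.ddp.prod, h.ddp.prod⟩
    · refine ⟨e.compactSpace, homologyManifold_of_homeo (isHomologyManifold_Sph k) e, ?_,
        (ddp_sph_prod hk).of_homeo ((Homeomorph.refl _).prodCongr e),
        (ddp_open_sph hk (OO γ) (isOpen_OO hγ)).of_homeo ((Homeomorph.refl _).prodCongr e)⟩
      exact ⟨e ⟨EuclideanSpace.single 0 1, by simp⟩⟩
  have := hm.anr.1
  exact ⟨YY γ × N, inferInstance, _, _, isSCobordism hγ hk hm hd hdi,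
    ⟨fun Φ => not_product hγ hr hm Φ⟩, collared_outer hγ, not_collared_inner hγ hr hm,
    fun h => h.prod⟩

end Pool.Agent.Results.MP_1b853a_gt.WildBoundary
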